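import Pool.Agent.H815.QC.Stm

/-!
# Project QC: P8
-/

set_option autoImplicit false

namespace Pool.Agent.H945.QC

open Pool.Agent.Y110.FJ Pool.Agent.T2H65.GP Pool.Agent.H815.QC

/-- the relation of `S_P8` -/
def St (v : Fin 5) (a b : Fin 5 × P1) : Prop := Stp a b ∧ a.1 ≠ v ∧ b.1 ≠ v

theorem hor (v i j : Fin 5) (z : P1) (hij : j = i + 1 ∨ i = j + 1) (hi : i ≠ v) (hj : j ≠ v) :
    St v (i, z) (j, z) := ⟨Or.inl ⟨rfl, hij⟩, hi, hj⟩

theorem ver (v i : Fin 5) (z : P1) (w : V1) (b : B1 w) (hw : w.1 = i) (hi : i ≠ v) :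
    St v (i, z) (i, z * GrP.of Γ1 B1 w b) := by
  refine ⟨Or.inr ⟨rfl, ?_⟩, hi, hi⟩
  show z⁻¹ * (z * GrP.of Γ1 B1 w b) ∈ std Γ1 B1 (stv i)
  rw [inv_mul_cancel_left]
  exact vg_le_std Γ1 B1 (T := stv i) (v := w) (Or.inl hw) ⟨b, rfl⟩

theorem down (v : Fin 5) (z : P1) : Relation.ReflTransGen (St v) (v + 1, z) (v + 4, z) := by
  refine Relation.ReflTransGen.head (b := (v + 2, z)) (hor v _ _ z ?_ ?_ ?_)
    (Relation.ReflTransGen.head (b := (v + 3, z)) (hor v _ _ z ?_ ?_ ?_)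
      (Relation.ReflTransGen.single (hor v _ _ z ?_ ?_ ?_))) <;>
  revert v <;> decide

theorem up (v : Fin 5) (z : P1) : Relation.ReflTransGen (St v) (v + 4, z) (v + 1, z) := by
  refine Relation.ReflTransGen.head (b := (v + 3, z)) (hor v _ _ z ?_ ?_ ?_)
    (Relation.ReflTransGen.head (b := (v + 2, z)) (hor v _ _ z ?_ ?_ ?_)
      (Relation.ReflTransGen.single (hor v _ _ z ?_ ?_ ?_))) <;>
  revert v <;> decide

theorem P8_proof : S_P8 := by
  intro v x x' hx hx'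
  obtain ⟨y, hy⟩ : x⁻¹ * x' ∈ std Γ1 B1 (nb v) := mul_mem (inv_mem hx) hx'
  have h4 : (v + 4 : Fin 5) ≠ v := (by decide : ∀ v : Fin 5, v + 4 ≠ v) v
  have h1 : (v + 1 : Fin 5) ≠ v := (by decide : ∀ v : Fin 5, v + 1 ≠ v) v
  have key : ∀ z : P1, Relation.ReflTransGen (St v) (v + 1, z) (v + 1, z * inc Γ1 B1 (nb v) y) := by
    refine gind (p := fun y => ∀ z : P1, Relation.ReflTransGen (St v) (v + 1, z)
      (v + 1, z * inc Γ1 B1 (nb v) y)) ?_ ?_ ?_ y
    · intro z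
      rw [map_one, mul_one]
    · rintro ⟨w, hw⟩ b z
      rw [inc_of]
      rcases hw with hw | hw
      · exact Relation.ReflTransGen.single (ver v _ z w b hw h1)
      · have hw' : w.1 = v + 4 := by
          rw [hw]
          generalize w.1 = u
          revert u
          decide
        exact ((down v z).tail (ver v _ z w b hw' h4)).trans (up v _)
    · intro y₁ y₂ h₁ h₂ z
      rw [map_mul, ← mul_assoc]
      exact (h₁ z).trans (h₂ _)
  have h := key x
  rw [hy, mul_inv_cancel_left] at h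
  exact h

end Pool.Agent.H945.QC
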